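import Mathlib
import Pool.Agent.helper64.OT.SpecM

/-!
# Project OT, row PSI: the Fejer kernel
-/

set_option autoImplicit false

namespace Pool.Agent.OT

open Finset

private lemma PSI_norm_one {p : ℕ} [Fact p.Prime] (t : ZMod p) : ‖ps t‖ = 1 := by
  unfold ps
  exact AddChar.norm_apply _ _

private lemma PSI_conj {p : ℕ} [Fact p.Prime] (t : ZMod p) : (starRingEnd ℂ) (ps t) = ps (-t) := by
  unfold ps
  rw [AddChar.map_neg_eq_conj]

private lemma PSI_orth {p : ℕ} [Fact p.Prime] (c : ZMod p) :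
    ∑ x : ZMod p, ps (c * x) = if c = 0 then (p : ℂ) else 0 := by
  have h := AddChar.sum_mulShift (ψ := (ZMod.stdAddChar : AddChar (ZMod p) ℂ)) c
    (ZMod.isPrimitive_stdAddChar p)
  have h2 : ∑ x : ZMod p, ps (c * x) = ∑ x : ZMod p, (ZMod.stdAddChar (x * c) : ℂ) :=
    sum_congr rfl fun x _ => by
      unfold ps
      rw [mul_comm]
  rw [h2, h, ZMod.card]
  split_ifs <;> simp

private lemma PSI_sq {p : ℕ} [Fact p.Prime] (T : ℕ) (x : ZMod p) :
    ((‖∑ s ∈ range T, ps ((s : ZMod p) * x)‖ ^ 2 : ℝ) : ℂ) =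
      ∑ s ∈ range T, ∑ s' ∈ range T, ps (((s : ZMod p) - (s' : ZMod p)) * x) := by
  have h1 : ((‖∑ s ∈ range T, ps ((s : ZMod p) * x)‖ ^ 2 : ℝ) : ℂ) =
      (∑ s ∈ range T, ps ((s : ZMod p) * x)) * (starRingEnd ℂ) (∑ s ∈ range T, ps ((s : ZMod p) * x)) := by
    rw [Complex.mul_conj, Complex.normSq_eq_norm_sq]
  rw [h1, map_sum, sum_mul_sum]
  refine sum_congr rfl fun s _ => sum_congr rfl fun s' _ => ?_
  rw [PSI_conj, sub_mul, sub_eq_add_neg]
  unfold ps
  rw [AddChar.map_add_eq_mul]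

theorem PSI : PSI_stmt := by
  intro p _ T hT hTp
  have hT0 : (0 : ℝ) < T := by exact_mod_cast hT
  refine ⟨fun x => ⟨by unfold psi; positivity, ?_⟩, ?_⟩
  · unfold psi
    rw [div_le_one (by positivity)]
    refine pow_le_pow_left₀ (norm_nonneg _) ?_ 2
    refine (norm_sum_le _ _).trans ?_
    have h0 : ∀ s ∈ range T, ‖ps ((s : ZMod p) * x)‖ = 1 := fun s _ => PSI_norm_one _
    rw [sum_congr rfl h0, sum_const, card_range, nsmul_eq_mul, mul_one]
  · have h1 : ((∑ x : ZMod p, ‖∑ s ∈ range T, ps ((s : ZMod p) * x)‖ ^ 2 : ℝ) : ℂ) = ((p * T : ℝ) : ℂ) := by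
      rw [Complex.ofReal_sum]
      have h2 : ∀ x : ZMod p, ((‖∑ s ∈ range T, ps ((s : ZMod p) * x)‖ ^ 2 : ℝ) : ℂ) =
        ∑ s ∈ range T, ∑ s' ∈ range T, ps (((s : ZMod p) - (s' : ZMod p)) * x) := PSI_sq T
      rw [sum_congr rfl fun x _ => h2 x, sum_comm]
      have h3 : ∀ s ∈ range T, ∑ x : ZMod p, ∑ s' ∈ range T, ps (((s : ZMod p) - (s' : ZMod p)) * x) = (p : ℂ) := by
        intro s hs
        rw [sum_comm]
        have h4 : ∀ s' ∈ range T, ∑ x : ZMod p, ps (((s : ZMod p) - (s' : ZMod p)) * x) = if s = s' then (p : ℂ) else 0 := by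
          intro s' hs'
          rw [PSI_orth]
          rw [mem_range] at hs hs'
          by_cases h5 : s = s'
          · rw [if_pos h5, if_pos (by rw [h5, sub_self])]
          · rw [if_neg h5, if_neg]
            intro h6
            rw [sub_eq_zero, ZMod.natCast_eq_natCast_iff] at h6
            exact h5 (Nat.ModEq.eq_of_lt_of_lt h6 (by omega) (by omega))
        rw [sum_congr rfl h4, sum_ite_eq, if_pos hs]
      rw [sum_congr rfl h3, sum_const, card_range, nsmul_eq_mul]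
      push_cast
      ring
    have h2 : ∑ x : ZMod p, ‖∑ s ∈ range T, ps ((s : ZMod p) * x)‖ ^ 2 = (p : ℝ) * T := by
      exact_mod_cast h1
    unfold psi
    rw [← sum_div, h2]
    field_simp

end Pool.Agent.OT
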