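import Pool.Agent.helper35.OT.Spec

/-!
# OT, row RZ: the recursion of the values at `ρ ^ 2 ^ n` (helper90)
-/

set_option autoImplicit false

namespace Pool.Agent.helper35.OT

open Finset

/-- Summability at smaller points. -/
theorem RZ_sum (a : ℕ → ℤ) (ρ x : ℝ) (h0 : 0 ≤ x) (h1 : x ≤ ρ)
    (hs : Summable fun n => |(a n : ℝ)| * ρ ^ n) : Summable fun n => ‖(a n : ℝ) * x ^ n‖ := by
  refine Summable.of_nonneg_of_le (fun n => norm_nonneg _) (fun n => ?_) hs
  rw [norm_mul, Real.norm_eq_abs, norm_pow, Real.norm_eq_abs, abs_of_nonneg h0]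
  exact mul_le_mul_of_nonneg_left (pow_le_pow_left₀ h0 h1 n) (abs_nonneg _)

/-- The value of a polynomial as a series. -/
theorem RZ_pol (L : Polynomial ℤ) (x : ℝ) :
    HasSum (fun n : ℕ => (L.coeff n : ℝ) * x ^ n) ((L.map (Int.castRingHom ℝ)).eval x) := by
  have e : (L.map (Int.castRingHom ℝ)).eval x =
      ∑ n ∈ range (L.natDegree + 1), (L.coeff n : ℝ) * x ^ n := by
    rw [Polynomial.eval_map, Polynomial.eval₂_eq_sum_range]
    rfl
  rw [e]
  apply hasSum_sum_of_ne_finset_zero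
  intro n hn
  have : L.natDegree < n := by
    rw [Finset.mem_range] at hn
    omega
  rw [Polynomial.coeff_eq_zero_of_natDegree_lt this]
  simp

theorem RZ : RZ_stmt := by
  intro a c L ρ h
  refine ⟨?_, ?_⟩
  · have := h.z
    simpa using this
  · intro n
    obtain ⟨x, hx⟩ : ∃ x : ℝ, x = ρ ^ 2 ^ n := ⟨_, rfl⟩
    have hx0 : 0 ≤ x := by rw [hx]; exact pow_nonneg h.r0.le _
    have hx1 : x ≤ ρ := by
      rw [hx]
      have h2 : 1 ≤ 2 ^ n := Nat.one_le_two_pow
      calc ρ ^ 2 ^ n ≤ ρ ^ 1 := pow_le_pow_of_le_one h.r0.le h.r1.le h2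
        _ = ρ := pow_one ρ
    have hxx : ρ ^ 2 ^ (n + 1) = x ^ 2 := by
      rw [hx, ← pow_mul, pow_succ]
    have hx2 : x ^ 2 ≤ ρ := by
      have h3 : x ≤ 1 := hx1.trans h.r1.le
      nlinarith
    rw [← hx, hxx]
    have s1 := RZ_sum a ρ x hx0 hx1 h.sm
    have s2 : Summable fun m : ℕ => (a m : ℝ) * (x ^ 2) ^ m :=
      (RZ_sum a ρ (x ^ 2) (sq_nonneg x) hx2 h.sm).of_norm
    have hC := tsum_mul_tsum_eq_tsum_sum_range_of_summable_norm s1 s1
    -- the even part
    have hinj : Function.Injective (fun m : ℕ => 2 * m) := fun p q hpq => by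
      have : 2 * p = 2 * q := hpq
      omega
    have hev : HasSum (fun k : ℕ => (c : ℝ) * (((if k % 2 = 0 then a (k / 2) else 0 : ℤ) : ℝ) * x ^ k))
        ((c : ℝ) * ∑' m, (a m : ℝ) * (x ^ 2) ^ m) := by
      apply HasSum.mul_left
      have h4 : HasSum ((fun k : ℕ => ((if k % 2 = 0 then a (k / 2) else 0 : ℤ) : ℝ) * x ^ k) ∘
          (fun m : ℕ => 2 * m)) (∑' m, (a m : ℝ) * (x ^ 2) ^ m) := by
        have e5 : ((fun k : ℕ => ((if k % 2 = 0 then a (k / 2) else 0 : ℤ) : ℝ) * x ^ k) ∘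
            (fun m : ℕ => 2 * m)) = fun m : ℕ => (a m : ℝ) * (x ^ 2) ^ m := by
          funext m
          have e6 : 2 * m % 2 = 0 := by omega
          have e7 : 2 * m / 2 = m := by omega
          simp only [Function.comp, e6, e7, if_true, pow_mul]
        rw [e5]
        exact s2.hasSum
      refine (hinj.hasSum_iff ?_).mp h4
      intro k hk
      have hk2 : ¬ k % 2 = 0 := by
        intro h6
        exact hk ⟨k / 2, by show 2 * (k / 2) = k; omega⟩
      simp only [if_neg hk2, Int.cast_zero, zero_mul]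
    have htot := hev.add (RZ_pol L x)
    have e8 : (∑' k : ℕ, ∑ i ∈ range (k + 1), (a i : ℝ) * x ^ i * ((a (k - i) : ℝ) * x ^ (k - i))) =
        (c : ℝ) * (∑' m, (a m : ℝ) * (x ^ 2) ^ m) + (L.map (Int.castRingHom ℝ)).eval x := by
      rw [← htot.tsum_eq]
      apply tsum_congr
      intro k
      have e9 : ∑ i ∈ range (k + 1), (a i : ℝ) * x ^ i * ((a (k - i) : ℝ) * x ^ (k - i)) =
          ((∑ i ∈ range (k + 1), a i * a (k - i) : ℤ) : ℝ) * x ^ k := by
        rw [Int.cast_sum, Finset.sum_mul]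
        apply Finset.sum_congr rfl
        intro i hi
        have h7 : i ≤ k := by
          rw [Finset.mem_range] at hi
          omega
        have e10 : x ^ k = x ^ i * x ^ (k - i) := by
          rw [← pow_add]
          congr 1
          omega
        rw [e10, Int.cast_mul]
        ring
      rw [e9, h.fe k]
      push_cast
      ring
    rw [e8] at hC
    have e11 : (∑' m, (a m : ℝ) * x ^ m) ^ 2 =
        (∑' m, (a m : ℝ) * x ^ m) * ∑' m, (a m : ℝ) * x ^ m := sq _
    rw [e11, hC]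
    ring

end Pool.Agent.helper35.OT
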