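import Mathlib
import Pool.Agent.helper64.OT.SpecF

/-!
# Project OT, row TRS: the three cores for unions of translates
-/

set_option autoImplicit false

namespace Pool.Agent.OT

open Finset Pool.Agent.SPI
open scoped Pointwise

private lemma TRS_large (ε : ℝ) (hε : 0 < ε) : ∃ p₁ : ℕ, ∀ p : ℕ, p₁ < p → (3 : ℝ) ≤ (p : ℝ) ^ ε := by
  have h1 := (tendsto_rpow_atTop hε).comp (tendsto_natCast_atTop_atTop (R := ℝ))
  obtain ⟨p₁, hp₁⟩ := Filter.eventually_atTop.1 (h1.eventually (Filter.eventually_ge_atTop (3 : ℝ)))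
  exact ⟨p₁, fun p hp => hp₁ p hp.le⟩

private lemma TRS_triv {p : ℕ} (χ : MulChar (ZMod p) ℂ) (X B : Finset (ZMod p)) (β : ZMod p → ℂ)
    (hχ : ∀ x, ‖χ x‖ ≤ 1) (hβ : ∀ b, ‖β b‖ ≤ 1) : ∑ x ∈ X, ‖FB χ B β x‖ ≤ (X.card : ℝ) * B.card := by
  have h1 : ∀ x ∈ X, ‖FB χ B β x‖ ≤ (B.card : ℝ) := by
    intro x _
    unfold FB
    refine (norm_sum_le _ _).trans ?_
    calc ∑ b ∈ B, ‖β b * χ (x + b)‖ ≤ ∑ b ∈ B, (1 : ℝ) := by
          refine sum_le_sum fun b _ => ?_
          rw [norm_mul]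
          exact mul_le_one₀ (hβ b) (norm_nonneg _) (hχ _)
      _ = B.card := by rw [sum_const, nsmul_eq_mul, mul_one]
  refine (sum_le_sum h1).trans ?_
  rw [sum_const, nsmul_eq_mul]

theorem TRS (hCOA : COA_stmt) (hCOB : COB_stmt) (hCOC : COC_stmt) (hTRZ : TRZ_stmt) (hCLW : CLW_stmt) (hENI : ENI_stmt) : TRS_stmt := by
  intro ε hε
  have hε2 : 0 < ε / 2 := by linarith
  obtain ⟨cA, pA, hcA, hA⟩ := hCOA (ε / 2) hε2
  obtain ⟨cB, pB, hcB, hB⟩ := hCOB (ε / 2) hε2
  obtain ⟨cC, pC, hcC, hC⟩ := hCOC (ε / 2) hε2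
  obtain ⟨p₁, hp₁⟩ := TRS_large (ε / 2) hε2
  obtain ⟨c, hc, hc1, hc2, hc3, hc4⟩ : ∃ c : ℝ, 0 < c ∧ c ≤ cA ∧ c ≤ cB ∧ c ≤ cC ∧ c ≤ ε / 2 :=
    ⟨min (min cA cB) (min cC (ε / 2)), lt_min (lt_min hcA hcB) (lt_min hcC hε2),
      (min_le_left _ _).trans (min_le_left _ _), (min_le_left _ _).trans (min_le_right _ _),
      (min_le_right _ _).trans (min_le_left _ _), (min_le_right _ _).trans (min_le_right _ _)⟩
  refine ⟨c / 2, max (max pA pB) (max pC p₁), by linarith, fun p _ hp χ N X Y Z W β hχ hβ hZ hyp => ?_⟩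
  have hpA : pA < p := lt_of_le_of_lt ((le_max_left _ _).trans (le_max_left _ _)) hp
  have hpB : pB < p := lt_of_le_of_lt ((le_max_right _ _).trans (le_max_left _ _)) hp
  have hpC : pC < p := lt_of_le_of_lt ((le_max_left _ _).trans (le_max_right _ _)) hp
  have hpD : p₁ < p := lt_of_le_of_lt ((le_max_right _ _).trans (le_max_right _ _)) hp
  have h3 := hp₁ p hpD
  have hp1 : (1 : ℝ) ≤ p := by exact_mod_cast (Fact.out : p.Prime).one_lt.le
  have hp0 : (0 : ℝ) < p := by linarith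
  have hχ1 : ∀ x, ‖χ x‖ ≤ 1 := fun x => by
    by_cases hx : IsUnit x
    · obtain ⟨u, rfl⟩ := hx
      exact (Complex.norm_eq_one_of_mem_rootsOfUnity (MulChar.apply_mem_rootsOfUnity u (χ := χ))).le
    · rw [χ.map_nonunit hx, norm_zero]
      exact zero_le_one
  obtain ⟨hN, hcov, hcase⟩ := hyp
  have hmono : ∀ a b : ℝ, a ≤ b → (p : ℝ) ^ a ≤ (p : ℝ) ^ b := fun a b h => Real.rpow_le_rpow_of_exponent_le hp1 h
  have hNp : N ≤ p := by
    have h4 : (N : ℝ) ≤ p := hN.trans (by
      calc (p : ℝ) ^ (1 - ε) ≤ (p : ℝ) ^ (1 : ℝ) := hmono _ _ (by linarith)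
        _ = p := Real.rpow_one _)
    exact_mod_cast h4
  have hXY0 : 0 ≤ Real.sqrt (p * (X.card * Y.card)) + (X.card : ℝ) * Y.card := by positivity
  have hV : ∀ (c' : ℝ) (X' B : Finset (ZMod p)), c ≤ c' → X'.card ≤ X.card → B.card = Y.card →
      (p : ℝ) ^ (-c') * (Real.sqrt (p * (X'.card * B.card)) + X'.card * B.card) ≤
        (p : ℝ) ^ (-c) * (Real.sqrt (p * (X.card * Y.card)) + X.card * Y.card) := by
    intro c' X' B hcc hX' hBY
    have h4 : (X'.card : ℝ) ≤ X.card := by exact_mod_cast hX'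
    rw [hBY]
    refine mul_le_mul (hmono _ _ (by linarith)) ?_ (by positivity) (by positivity)
    have h5 : (X'.card : ℝ) * Y.card ≤ X.card * Y.card := mul_le_mul_of_nonneg_right h4 (Nat.cast_nonneg _)
    exact add_le_add (Real.sqrt_le_sqrt (mul_le_mul_of_nonneg_left h5 hp0.le)) h5
  have key := hTRZ p χ N X Y Z β ((p : ℝ) ^ (-c) * (Real.sqrt (p * (X.card * Y.card)) + X.card * Y.card)) hNp hβ hcov ?_
  · refine key.trans ?_
    calc (Z.card : ℝ) * ((p : ℝ) ^ (-c) * (Real.sqrt (p * (X.card * Y.card)) + X.card * Y.card))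
        ≤ (p : ℝ) ^ (c / 2) * ((p : ℝ) ^ (-c) * (Real.sqrt (p * (X.card * Y.card)) + X.card * Y.card)) :=
          mul_le_mul_of_nonneg_right hZ (by positivity)
      _ = (p : ℝ) ^ (-(c / 2)) * (Real.sqrt (p * (X.card * Y.card)) + X.card * Y.card) := by
          rw [← mul_assoc, ← Real.rpow_add hp0]
          congr 2
          ring
  · intro z hz X' hX'X hX'N β' hβ'
    obtain ⟨hEN, hcard⟩ := hENI p N Y z
    rcases Nat.eq_zero_or_pos N with hN0 | hN0
    · have hX'0 : X' = ∅ := by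
        rw [eq_empty_iff_forall_notMem]
        intro x hx
        have := hX'N x hx
        omega
      rw [hX'0, sum_empty]
      positivity
    rcases hcase with ⟨h4, h5⟩ | ⟨h4, h5⟩
    · by_cases h6 : ((Y.image fun y => z - y).card : ℝ) ≤ (p : ℝ) ^ (1 - ε / 2) ∨ (p : ℝ) ^ (ε / 2) ≤ X'.card
      · rcases h5 with h5 | h5
        · refine (hA p hpA χ N X' (Y.image fun y => z - y) β' hχ hβ' hN0 (h5.trans (hmono _ _ (by linarith))) hX'N h6).trans ?_
          exact hV cA X' _ hc1 hX'X hcard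
        · refine (hC p hpC χ N X' (Y.image fun y => z - y) β' hχ hβ' hN0 (hN.trans (hmono _ _ (by linarith))) hX'N h6 ?_).trans ?_
          · rw [hEN, hcard]
            refine h5.trans (mul_le_mul_of_nonneg_right (hmono _ _ (by linarith)) (by positivity))
          · exact hV cC X' _ hc3 hX'X hcard
      · push Not at h6
        obtain ⟨h7, h8⟩ := h6
        rw [hcard] at h7
        have h9 : (p : ℝ) ^ ε ≤ X.card := by
          rcases h4 with h4 | h4
          · have := hmono (1 - ε) (1 - ε / 2) (by linarith)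
            linarith
          · exact h4
        refine (TRS_triv χ X' _ β' hχ1 hβ').trans ?_
        rw [hcard]
        have hY0 : (0 : ℝ) ≤ Y.card := Nat.cast_nonneg _
        calc (X'.card : ℝ) * Y.card ≤ (p : ℝ) ^ (ε / 2) * Y.card := mul_le_mul_of_nonneg_right h8.le hY0
          _ = (p : ℝ) ^ (-(ε / 2)) * ((p : ℝ) ^ ε * Y.card) := by
              rw [← mul_assoc, ← Real.rpow_add hp0]
              congr 2
              ring
          _ ≤ (p : ℝ) ^ (-c) * (X.card * Y.card) := by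
              refine mul_le_mul (hmono _ _ (by linarith)) (mul_le_mul_of_nonneg_right h9 hY0) (by positivity) (by positivity)
          _ ≤ (p : ℝ) ^ (-c) * (Real.sqrt (p * (X.card * Y.card)) + X.card * Y.card) := by
              refine mul_le_mul_of_nonneg_left ?_ (by positivity)
              have := Real.sqrt_nonneg ((p : ℝ) * (X.card * Y.card))
              linarith
    · have h6 := hCLW p N Y W z hN0 hNp h5
      refine (hB p hpB χ N X' (Y.image fun y => z - y) β' hχ hβ' hN0 hX'N ?_).trans ?_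
      · have h7 : ((cells N (Y.image fun y => z - y)).card : ℝ) ≤ 3 * W.card := by exact_mod_cast h6
        calc (N : ℝ) * (cells N (Y.image fun y => z - y)).card ≤ N * (3 * W.card) :=
              mul_le_mul_of_nonneg_left h7 (Nat.cast_nonneg _)
          _ = 3 * (N * W.card) := by ring
          _ ≤ (p : ℝ) ^ (ε / 2) * (p : ℝ) ^ (1 - ε) :=
              mul_le_mul h3 h4 (by positivity) (by positivity)
          _ = (p : ℝ) ^ (1 - ε / 2) := by
              rw [← Real.rpow_add hp0]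
              congr 1
              ring
      · exact hV cB X' _ hc2 hX'X hcard

end Pool.Agent.OT
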